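import Pool.Agent.Run7.h568.DG.CIface

/-! Piece C_pos of project DG part 2 (helper568, MP_00a7c6_gt), proof by helper111. -/

set_option autoImplicit false

open Real Matrix Run7.h568.DG

noncomputable section

namespace Run7.h111.DG

theorem mono_per (f : ℕ → ℕ) (n0 Q : ℕ) (hQ : 0 < Q) (hm : ∀ n, n0 ≤ n → f n ≤ f (n + 1))
    (hp : ∀ n, f (n + Q) = f n) : ∀ n, n0 ≤ n → f (n + 1) = f n := by
  intro n hn
  have h : ∀ k, f (n + 1) ≤ f (n + 1 + k) := by
    intro k
    induction k with
    | zero => exact le_refl _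
    | succ k ih => exact ih.trans (hm (n + 1 + k) (by omega))
  have h1 := h (Q - 1)
  rw [show n + 1 + (Q - 1) = n + Q by omega, hp n] at h1
  exact le_antisymm h1 (hm n hn)

theorem anti_per (f : ℕ → ℕ) (Q : ℕ) (hQ : 0 < Q) (hm : ∀ n, f (n + 1) ≤ f n)
    (hp : ∀ n, f (n + Q) = f n) : ∀ n, f (n + 1) = f n := by
  intro n
  have h : ∀ k, f (n + 1 + k) ≤ f (n + 1) := by
    intro k
    induction k with
    | zero => exact le_refl _
    | succ k ih => exact (hm (n + 1 + k)).trans ih
  have h1 := h (Q - 1)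
  rw [show n + 1 + (Q - 1) = n + Q by omega, hp n] at h1
  exact le_antisymm (hm n) h1

variable {D : Type} [Fintype D] [DecidableEq D] {T : Tri D}

theorem rho_pow (T : Tri D) : ∃ N, 0 < N ∧ ∀ d, T.rho^[N] d = d := by
  let r : Equiv.Perm D := T.sg.trans (T.sg.trans T.io)
  have hr : ∀ d, r d = T.rho d := fun d => rfl
  have hrn : ∀ n d, (r ^ n) d = T.rho^[n] d := by
    intro n
    induction n with
    | zero => intro d; rfl
    | succ n ih =>
      intro d
      rw [pow_succ, Equiv.Perm.mul_apply, ih, Function.iterate_succ_apply, hr]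
  refine ⟨orderOf r, orderOf_pos r, fun d => ?_⟩
  rw [← hrn, pow_orderOf_eq_one]
  rfl

theorem rho_symm (T : Tri D) (x y : D) (j : ℕ) (h : T.rho^[j] x = y) :
    ∃ k, 0 < k ∧ T.rho^[k] y = x := by
  obtain ⟨N, hN, hper⟩ := rho_pow T
  have hall : ∀ m z, T.rho^[N * m] z = z := by
    intro m
    induction m with
    | zero => intro z; rfl
    | succ m ih =>
      intro z
      rw [Nat.mul_succ, Function.iterate_add_apply, hper, ih]
  refine ⟨N * (j + 1) - j, ?_, ?_⟩
  · have : j + 1 ≤ N * (j + 1) := Nat.le_mul_of_pos_left _ hN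
    omega
  · have hle : j ≤ N * (j + 1) := by
      have : j + 1 ≤ N * (j + 1) := Nat.le_mul_of_pos_left _ hN
      omega
    rw [← h, ← Function.iterate_add_apply, Nat.sub_add_cancel hle, hall]

/-- one step with the bit `false` which is not a `ct` step -/
theorem trans_step (P : Portal T) (c : D → ℕ) (a : ℕ) (hM : P.Match c a) (w : D × ℕ)
    (hb : w.2 < c w.1)
    (hct : ¬ ((Portal.out (T := T) c w).1 = P.v ∧ (Portal.out (T := T) c w).2 < a)) :
    (T.rho w.1 = P.u ∧ w.2 < a ∧ P.snext c a w = (P.v, w.2)) ∨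
    (T.rho w.1 = P.u ∧ a ≤ w.2 ∧ P.snext c a w = (P.u, w.2 - a)) ∨
    (T.rho w.1 = P.v ∧ P.snext c a w = (P.v, w.2 + a)) ∨
    (T.rho w.1 ≠ P.u ∧ T.rho w.1 ≠ P.v ∧ P.snext c a w = (T.rho w.1, w.2)) := by
  obtain ⟨hM1, hM2, hM3⟩ := hM
  have hout : Portal.out (T := T) c w =
      (T.sg (T.sg w.1), T.num c (T.sg (T.sg w.1)) - 1 - w.2) := by
    unfold Portal.out
    rw [if_pos hb]
  have hnum : w.2 < T.num c (T.sg (T.sg w.1)) := by
    unfold Tri.num
    rw [T.sg3]
    omega
  have hrho : T.rho w.1 = T.io (T.sg (T.sg w.1)) := rfl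
  rw [hout] at hct
  unfold Portal.snext
  rw [hout, hrho]
  generalize T.sg (T.sg w.1) = s at *
  have huv : P.u ≠ P.v := P.huv 0
  have hne := P.hne
  have hiov : T.io P.v ≠ P.u := fun h => hne (by rw [← h, T.io_io])
  have hio : ∀ x y, T.io x = T.io y → x = y := fun x y h => T.io.injective h
  by_cases h1 : s = T.io P.u
  · subst h1
    rw [T.io_io]
    unfold Portal.cross
    simp only [if_true]
    by_cases h2 : T.num c P.u ≤ T.num c (T.io P.u) - 1 - w.2
    · left
      rw [if_pos h2]
      refine ⟨trivial, by omega, ?_⟩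
      rw [Prod.mk.injEq]
      exact ⟨rfl, by omega⟩
    · right; left
      rw [if_neg h2]
      refine ⟨trivial, by omega, ?_⟩
      rw [Prod.mk.injEq]
      exact ⟨rfl, by omega⟩
  · have hsu : T.io s ≠ P.u := fun h => h1 (by rw [← h, T.io_io])
    by_cases h2 : s = P.v
    · subst h2
      right; right; right
      refine ⟨hsu, T.io_ne _, ?_⟩
      unfold Portal.cross
      simp only [if_true]
      have h3 : ¬ (T.num c P.v - 1 - w.2 < a) := fun h => hct ⟨rfl, h⟩
      rw [if_neg hne, if_neg h3, Prod.mk.injEq]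
      exact ⟨rfl, by omega⟩
    · by_cases h3 : s = T.io P.v
      · subst h3
        right; right; left
        rw [T.io_io]
        refine ⟨rfl, ?_⟩
        unfold Portal.cross
        simp only [if_true]
        rw [if_neg h1, if_neg h2, Prod.mk.injEq]
        exact ⟨rfl, by omega⟩
      · right; right; right
        have hsv : T.io s ≠ P.v := fun h => h3 (by rw [← h, T.io_io])
        refine ⟨hsu, hsv, ?_⟩
        unfold Portal.cross
        simp only
        rw [if_neg h1, if_neg h2, if_neg h3, Prod.mk.injEq]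
        exact ⟨rfl, by omega⟩

/-- a closed strand does not turn around one vertex only -/
theorem core (P : Portal T) (t : PTD P) (x : ℕ → D × ℕ)
    (hx : ∀ n, x (n + 1) = P.snext t.c t.a (x n)) (hp : ∀ n, x (n + t.Q) = x n)
    (hb : ∀ n, (x n).2 < t.c (x n).1)
    (hct : ∀ n, ¬ ((Portal.out (T := T) t.c (x n)).1 = P.v ∧
      (Portal.out (T := T) t.c (x n)).2 < t.a)) : False := by
  have ha := t.ha
  have hQ := t.hQ
  have hstep := fun n => trans_step P t.c t.a t.hc (x n) (hb n) (hct n)
  have hnovu : ∀ j, T.rho^[j] P.v ≠ P.u := by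
    intro j hj
    obtain ⟨k, -, hk⟩ := rho_symm T _ _ j hj
    exact P.huv k hk
  by_cases hV : ∃ n0 j, T.rho^[j] P.v = (x n0).1
  · obtain ⟨n0, j0, hj0⟩ := hV
    have hin : ∀ n, n0 ≤ n → ∃ j, T.rho^[j] P.v = (x n).1 := by
      intro n hn
      induction n, hn using Nat.le_induction with
      | base => exact ⟨j0, hj0⟩
      | succ n hn ih =>
        obtain ⟨j, hj⟩ := ih
        have hr : T.rho^[j + 1] P.v = T.rho (x n).1 := by
          rw [Function.iterate_succ_apply', hj]
        rcases hstep n with ⟨h, -, -⟩ | ⟨h, -, -⟩ | ⟨h, h'⟩ | ⟨-, -, h'⟩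
        · exact absurd (hr.trans h) (hnovu _)
        · exact absurd (hr.trans h) (hnovu _)
        · rw [hx n, h']; exact ⟨0, rfl⟩
        · rw [hx n, h']; exact ⟨j + 1, hr⟩
    have hstep' : ∀ n, n0 ≤ n → (T.rho (x n).1 = P.v ∧ x (n + 1) = (P.v, (x n).2 + t.a)) ∨
        (T.rho (x n).1 ≠ P.v ∧ x (n + 1) = (T.rho (x n).1, (x n).2)) := by
      intro n hn
      obtain ⟨j, hj⟩ := hin n hn
      have hr : T.rho^[j + 1] P.v = T.rho (x n).1 := by
        rw [Function.iterate_succ_apply', hj]
      rcases hstep n with ⟨h, -, -⟩ | ⟨h, -, -⟩ | ⟨h, h'⟩ | ⟨-, h, h'⟩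
      · exact absurd (hr.trans h) (hnovu _)
      · exact absurd (hr.trans h) (hnovu _)
      · left; exact ⟨h, by rw [hx n, h']⟩
      · right; exact ⟨h, by rw [hx n, h']⟩
    have hconst := mono_per (fun n => (x n).2) n0 t.Q hQ (by
      intro n hn
      show (x n).2 ≤ (x (n + 1)).2
      rcases hstep' n hn with ⟨-, h⟩ | ⟨-, h⟩ <;> simp [h]) (by
      intro n
      show (x (n + t.Q)).2 = (x n).2
      rw [hp n])
    have hiv : ∀ n, n0 ≤ n → T.rho (x n).1 ≠ P.v ∧ (x (n + 1)).1 = T.rho (x n).1 := by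
      intro n hn
      rcases hstep' n hn with ⟨-, h⟩ | ⟨h, h'⟩
      · have h2 : (x (n + 1)).2 = (x n).2 := hconst n hn
        rw [h] at h2
        simp only at h2
        omega
      · exact ⟨h, by rw [h']⟩
    have hrun : ∀ m, (x (n0 + m)).1 = T.rho^[m] (x n0).1 := by
      intro m
      induction m with
      | zero => rfl
      | succ m ih =>
        rw [Function.iterate_succ_apply', ← ih]
        exact (hiv (n0 + m) (by omega)).2
    obtain ⟨k, hk, hkv⟩ := rho_symm T _ _ j0 hj0
    obtain ⟨k', rfl⟩ : ∃ k', k = k' + 1 := ⟨k - 1, by omega⟩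
    rw [Function.iterate_succ_apply', ← hrun] at hkv
    exact (hiv (n0 + k') (by omega)).1 hkv
  · push Not at hV
    have hstep' : ∀ n, (t.a ≤ (x n).2 ∧ x (n + 1) = (P.u, (x n).2 - t.a)) ∨
        (T.rho (x n).1 ≠ P.u ∧ T.rho (x n).1 ≠ P.v ∧ x (n + 1) = (T.rho (x n).1, (x n).2)) := by
      intro n
      rcases hstep n with ⟨-, -, h⟩ | ⟨-, h, h'⟩ | ⟨-, h⟩ | ⟨h, h', h''⟩
      · exact absurd (by rw [hx n, h]; rfl) (hV (n + 1) 0)
      · left; exact ⟨h, by rw [hx n, h']⟩
      · exact absurd (by rw [hx n, h]; rfl) (hV (n + 1) 0)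
      · right; exact ⟨h, h', by rw [hx n, h'']⟩
    have hconst := anti_per (fun n => (x n).2) t.Q hQ (by
      intro n
      show (x (n + 1)).2 ≤ (x n).2
      rcases hstep' n with ⟨-, h⟩ | ⟨-, -, h⟩ <;> simp [h]) (by
      intro n
      show (x (n + t.Q)).2 = (x n).2
      rw [hp n])
    have hiv : ∀ n, T.rho (x n).1 ≠ P.u ∧ T.rho (x n).1 ≠ P.v ∧
        (x (n + 1)).1 = T.rho (x n).1 := by
      intro n
      rcases hstep' n with ⟨h0, h⟩ | ⟨h, h', h''⟩
      · have h2 : (x (n + 1)).2 = (x n).2 := hconst n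
        rw [h] at h2
        simp only at h2
        omega
      · exact ⟨h, h', by rw [h'']⟩
    have hrun : ∀ m, (x m).1 = T.rho^[m] (x 0).1 := by
      intro m
      induction m with
      | zero => rfl
      | succ m ih =>
        rw [Function.iterate_succ_apply', ← ih]
        exact (hiv m).2.2
    have h0 : (x 0).1 = T.rho (x (t.Q - 1)).1 := by
      have h1 := (hiv (t.Q - 1)).2.2
      rw [Nat.sub_add_cancel hQ] at h1
      have h2 := hp 0
      rw [Nat.zero_add] at h2
      rw [← h1, h2]
    have hnu : ∀ j, T.rho^[j] (x 0).1 ≠ P.u := by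
      intro j
      cases j with
      | zero =>
        show (x 0).1 ≠ P.u
        rw [h0]
        exact (hiv _).1
      | succ j =>
        rw [Function.iterate_succ_apply', ← hrun]
        exact (hiv j).1
    have hnv : ∀ j, T.rho^[j] (x 0).1 ≠ P.v := by
      intro j
      cases j with
      | zero =>
        show (x 0).1 ≠ P.v
        rw [h0]
        exact (hiv _).2.1
      | succ j =>
        rw [Function.iterate_succ_apply', ← hrun]
        exact (hiv j).2.1
    obtain ⟨j, hj⟩ := t.hn (x 0).1 hnu hnv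
    have := hb j
    rw [hrun j, hj] at this
    omega

theorem valid_append (P : Portal T) (w1 w2 : List Letter) (d : D) (h1 : P.Valid w1 d)
    (h2 : P.Valid w2 (P.endp w1 d)) : P.Valid (w1 ++ w2) d := by
  induction w1 generalizing d with
  | nil => exact h2
  | cons l w ih => exact ⟨h1.1, ih _ h1.2 h2⟩

theorem endp_append (P : Portal T) (w1 w2 : List Letter) (d : D) :
    P.endp (w1 ++ w2) d = P.endp w2 (P.endp w1 d) := by
  induction w1 generalizing d with
  | nil => rfl
  | cons l w ih => exact ih _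

theorem mem_itin (P : Portal T) (c : D → ℕ) (a : ℕ) (n : ℕ) : ∀ (w : D × ℕ) (k : ℕ), k < n →
    ∀ l ∈ P.sletters c a ((P.snext c a)^[k] w), l ∈ P.itin c a n w := by
  induction n with
  | zero => intro w k hk; omega
  | succ n ih =>
    intro w k hk l hl
    show l ∈ P.sletters c a w ++ P.itin c a n (P.snext c a w)
    rw [List.mem_append]
    cases k with
    | zero => exact Or.inl hl
    | succ k =>
      right
      rw [Function.iterate_succ_apply] at hl
      exact ih _ k (by omega) l hl

theorem c_pos (hcomb : C_comb) (hlet : C_let) (htr : C_tr) : C_pos := by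
  intro D _ _ T P t p hp d i hi
  have hc1 := hcomb T P t.c t.a t.hc
  have hl1 := hlet T P t.c t.a t.hc p hp.1
  have hlt : ∀ n (w : D × ℕ), w.2 < T.num t.c w.1 →
      ((P.snext t.c t.a)^[n] w).2 < T.num t.c ((P.snext t.c t.a)^[n] w).1 := by
    intro n
    induction n with
    | zero => intro w hw; exact hw
    | succ n ih =>
      intro w hw
      rw [Function.iterate_succ_apply]
      exact ih _ (hc1 w hw).2.2.2.2.2
  have hval : ∀ n (w : D × ℕ), w.2 < T.num t.c w.1 → P.Valid (P.itin t.c t.a n w) w.1 ∧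
      P.endp (P.itin t.c t.a n w) w.1 = ((P.snext t.c t.a)^[n] w).1 := by
    intro n
    induction n with
    | zero => intro w hw; exact ⟨trivial, rfl⟩
    | succ n ih =>
      intro w hw
      obtain ⟨h1, h2, -, -⟩ := hl1 w hw
      have h3 := ih _ (hc1 w hw).2.2.2.2.2
      constructor
      · show P.Valid (P.sletters t.c t.a w ++ P.itin t.c t.a n (P.snext t.c t.a w)) w.1
        apply valid_append P _ _ _ h1
        rw [h2]
        exact h3.1
      · show P.endp (P.sletters t.c t.a w ++ P.itin t.c t.a n (P.snext t.c t.a w)) w.1 = _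
        rw [endp_append, h2, h3.2, Function.iterate_succ_apply]
  let y : ℕ → D × ℕ := fun n => (P.snext t.c t.a)^[n] (d, i)
  have hylt : ∀ n, (y n).2 < T.num t.c (y n).1 := fun n => hlt n (d, i) hi
  have hys : ∀ n, y (n + 1) = P.snext t.c t.a (y n) := fun n =>
    Function.iterate_succ_apply' _ _ _
  have hyp : ∀ n, y (n + t.Q) = y n := by
    intro n
    show (P.snext t.c t.a)^[n + t.Q] (d, i) = _
    rw [Function.iterate_add_apply, t.per d i hi]
  have hymod : ∀ n, y (n % t.Q) = y n := by
    intro n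
    exact (Function.IsPeriodicPt.iterate_mod_apply (t.per d i hi) n)
  have hmem : ∀ n, ∀ l ∈ P.sletters t.c t.a (y n), l ∈ P.itin t.c t.a t.Q (d, i) := by
    intro n l hl
    rw [← hymod n] at hl
    exact mem_itin P t.c t.a t.Q (d, i) (n % t.Q) (Nat.mod_lt _ t.hQ) l hl
  have hv := hval t.Q (d, i) hi
  have hend : P.endp (P.itin t.c t.a t.Q (d, i)) d = d := by
    have := hv.2
    rw [t.per d i hi] at this
    exact this
  have hT : ∃ l ∈ P.itin t.c t.a t.Q (d, i), l.isT := by
    by_contra hcon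
    push Not at hcon
    have hbit : ∀ n, (y n).2 < t.c (y n).1 := by
      intro n
      by_contra h
      refine hcon (Letter.turn (Tri.sbit t.c (y n))) (hmem n _ List.mem_cons_self) ?_
      show Tri.sbit t.c (y n) = true
      unfold Tri.sbit
      simpa using h
    have hnct : ∀ n, ¬ ((Portal.out (T := T) t.c (y n)).1 = P.v ∧
        (Portal.out (T := T) t.c (y n)).2 < t.a) := by
      intro n h
      refine hcon (Letter.ct 0) (hmem n _ ?_) trivial
      unfold Portal.sletters
      have h' : ¬ ((Portal.out (T := T) t.c (y n)).1 = T.io P.u ∧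
          T.num t.c P.u ≤ (Portal.out (T := T) t.c (y n)).2) := by
        rintro ⟨h1, -⟩
        exact P.hne (h.1.symm.trans h1)
      rw [if_neg h', if_pos h]
      simp
    exact core P t y hys hyp hbit hnct
  have hF : ∃ l ∈ P.itin t.c t.a t.Q (d, i), l.isF := by
    by_contra hcon
    push Not at hcon
    have hbit : ∀ n, Tri.sbit t.c (y n) = true := by
      intro n
      by_contra h
      refine hcon (Letter.turn (Tri.sbit t.c (y n))) (hmem n _ List.mem_cons_self) ?_
      show Tri.sbit t.c (y n) = false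
      simpa using h
    have hncf : ∀ n, ¬ ((Portal.out (T := T) t.c (y n)).1 = T.io P.u ∧
        T.num t.c P.u ≤ (Portal.out (T := T) t.c (y n)).2) := by
      intro n h
      refine hcon (Letter.cf 0) (hmem n _ ?_) trivial
      unfold Portal.sletters
      rw [if_pos h]
      simp
    have hyQ : ∀ n, y n = P.cross t.c t.a (Portal.out (T := T) t.c (y (n + (t.Q - 1)))) := by
      intro n
      have h1 := hys (n + (t.Q - 1))
      rw [show n + (t.Q - 1) + 1 = n + t.Q by have := t.hQ; omega, hyp n] at h1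
      exact h1
    have hcr : ∀ n, P.cross t.c t.a (y n) = Portal.out (T := T) t.c (y (n + (t.Q - 1))) := by
      intro n
      rw [hyQ n]
      exact (hc1 _ (hc1 _ (hylt _)).1).2.2.2.2.1
    let x : ℕ → D × ℕ := fun n => Portal.out (T := T) t.c (y (n * (t.Q - 1)))
    have hoo : ∀ n, Portal.out (T := T) t.c (x n) = y (n * (t.Q - 1)) := fun n =>
      (hc1 _ (hylt _)).2.1
    refine core P t x ?_ ?_ ?_ ?_
    · intro n
      show Portal.out (T := T) t.c (y ((n + 1) * (t.Q - 1))) =
        P.cross t.c t.a (Portal.out (T := T) t.c (x n))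
      rw [hoo n, hcr, Nat.succ_mul]
    · intro n
      show Portal.out (T := T) t.c (y ((n + t.Q) * (t.Q - 1))) = Portal.out (T := T) t.c _
      congr 1
      rw [← hymod ((n + t.Q) * (t.Q - 1)), ← hymod (n * (t.Q - 1)), Nat.add_mul,
        Nat.add_mul_mod_self_left]
    · intro n
      have h1 := (hc1 _ (hylt (n * (t.Q - 1)))).2.2.1
      rw [hbit] at h1
      have h2 : Tri.sbit t.c (x n) = false := h1
      unfold Tri.sbit at h2
      simpa using h2
    · intro n
      rw [hoo n]
      rintro ⟨h1, h2⟩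
      have h3 := hcr (n * (t.Q - 1))
      have h4 : P.cross t.c t.a (y (n * (t.Q - 1))) =
          (T.io P.u, T.num t.c (T.io P.u) - 1 - (y (n * (t.Q - 1))).2) := by
        unfold Portal.cross
        rw [if_neg (by rw [h1]; exact P.hne), if_pos h1, if_pos h2]
      rw [h4] at h3
      refine hncf (n * (t.Q - 1) + (t.Q - 1)) ?_
      rw [← h3]
      refine ⟨rfl, ?_⟩
      show T.num t.c P.u ≤ T.num t.c (T.io P.u) - 1 - (y (n * (t.Q - 1))).2
      have := t.hc.2.1
      omega
  refine ⟨hv.1, hend, hT, hF, ?_⟩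
  exact (htr T P p hp _ d hv.1 hT hF).1

end Run7.h111.DG
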